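import Mathlib
import Pool.Agent.Helper65.MT.St

open Pool.Agent.Helper65.MT Pool.Agent.Helper16 Real

namespace Pool.Agent.Helper94.MT

lemma lcm_le (k : ℕ) : (Nat.lcmUpto k : ℝ) ≤ exp ((log 4 + 4) * k) := by
  have h1 := Chebyshev.psi_eq_log_lcmUpto k
  have h2 := Chebyshev.psi_le_const_mul_self (x := (k:ℝ)) (by positivity)
  rw [h1] at h2
  have h3 : (0:ℝ) < Nat.lcmUpto k := by exact_mod_cast Nat.lcmUpto_pos k
  rw [← Real.log_le_iff_le_exp h3]
  exact h2

lemma first_le (n k p : ℕ) (c : ℝ) (hc0 : 0 ≤ c) (hlcm : (Nat.lcmUpto k : ℝ) ≤ exp (c * k))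
    (hn : 1 ≤ n) (hk : 1 ≤ k) (hkp : k < p) (hnp : n < p)
    (ha : c + 4 ≤ log p - log n) (hK : log p ≤ k) :
    (p.factorial : ℝ) * (k.factorial : ℝ) ^ (p + 1) * (Nat.lcmUpto k : ℝ) ^ p *
        ((n : ℝ) ^ ((k + 1) * p) / (((k + 1) * p).factorial : ℝ) * Real.exp (k * n)) ≤ 1 / 2 := by
  have hp0 : 0 < p := by omega
  have hn0 : (0:ℝ) < n := by exact_mod_cast (by omega : 0 < n)
  have h1 := factorial_le_exp p hp0
  have h2 : (k.factorial : ℝ) ^ (p + 1) ≤ exp ((p + 1 : ℕ) * (k * log k)) := by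
    rw [Real.exp_nat_mul]
    exact pow_le_pow_left₀ (by positivity) (factorial_le_exp k (by omega)) _
  have h3 : (Nat.lcmUpto k : ℝ) ^ p ≤ exp ((p : ℕ) * (c * k)) := by
    rw [Real.exp_nat_mul]
    exact pow_le_pow_left₀ (by positivity) hlcm _
  have hm0 : 0 < (k + 1) * p := by positivity
  have h4 : (n : ℝ) ^ ((k + 1) * p) / (((k + 1) * p).factorial : ℝ) ≤
      exp (((k + 1) * p : ℕ) * log n) *
        exp (-((((k + 1) * p : ℕ) : ℝ) * log ((((k + 1) * p : ℕ) : ℝ))) + (((k + 1) * p : ℕ) : ℝ)) := by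
    rw [div_eq_mul_one_div, pow_eq_exp hn0]
    gcongr
    exact inv_factorial_le_exp _ hm0
  have hP : (0:ℝ) < p := by exact_mod_cast hp0
  have hP1 : (1:ℝ) ≤ p := by exact_mod_cast hp0
  have hK1 : (1:ℝ) ≤ k := by exact_mod_cast hk
  have hKP : (k:ℝ) ≤ p := by exact_mod_cast hkp.le
  have hNP : (n:ℝ) ≤ p := by exact_mod_cast hnp.le
  have hlogm : log ((((k + 1) * p : ℕ) : ℝ)) = log ((k:ℝ) + 1) + log p := by
    push_cast
    rw [log_mul (by positivity) (by positivity)]
  have hlk : log (k:ℝ) ≤ log ((k:ℝ) + 1) := log_le_log (by linarith) (by linarith)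
  have hlk0 : 0 ≤ log (k:ℝ) := log_nonneg hK1
  have hlkp : log (k:ℝ) ≤ p := by
    have := log_le_sub_one_of_pos (show (0:ℝ) < k by linarith)
    linarith
  rw [hlogm] at h4
  calc (p.factorial : ℝ) * (k.factorial : ℝ) ^ (p + 1) * (Nat.lcmUpto k : ℝ) ^ p *
        ((n : ℝ) ^ ((k + 1) * p) / (((k + 1) * p).factorial : ℝ) * Real.exp (k * n))
      ≤ exp (p * log p) * exp ((p + 1 : ℕ) * (k * log k)) * exp ((p : ℕ) * (c * k)) *
        (exp (((k + 1) * p : ℕ) * log n) *
        exp (-((((k + 1) * p : ℕ) : ℝ) * (log ((k:ℝ) + 1) + log p)) + (((k + 1) * p : ℕ) : ℝ)) *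
          Real.exp (k * n)) := by
        gcongr
    _ = exp (p * log p + (p + 1 : ℕ) * (k * log k) + (p : ℕ) * (c * k) +
        (((k + 1) * p : ℕ) * log n +
        (-((((k + 1) * p : ℕ) : ℝ) * (log ((k:ℝ) + 1) + log p)) + (((k + 1) * p : ℕ) : ℝ)) +
          k * n)) := by
        simp only [exp_add]
    _ ≤ exp (-1) := by
        rw [exp_le_exp]
        push_cast
        have e1 : ((k:ℝ) + 1) * p * log k ≤ ((k:ℝ) + 1) * p * log ((k:ℝ) + 1) := by gcongr
        have e2 : (k:ℝ) * log k ≤ k * p := by gcongr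
        have e3 : (k:ℝ) * n ≤ k * p := by gcongr
        have e4 : ((k:ℝ) + 1) * p * (c + 4) ≤ ((k:ℝ) + 1) * p * (log p - log n) := by gcongr
        have e5 : (p:ℝ) * log p ≤ p * k := by gcongr
        have e6 : 0 ≤ (p:ℝ) * log k := by positivity
        have e7 : 0 ≤ c * p := by positivity
        nlinarith
    _ ≤ 1 / 2 := by
        rw [exp_neg, inv_eq_one_div]
        have h5 := add_one_le_exp (1:ℝ)
        exact one_div_le_one_div_of_le (by norm_num) (by linarith)

theorem m_MB : StMB := by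
  intro hRA hGM hRM hRN hRC
  have hmain := hRA hGM hRM hRN hRC
  set c : ℝ := log 4 + 4 with hc
  have hl4 : 0 ≤ log (4:ℝ) := log_nonneg (by norm_num)
  have hc0 : 0 ≤ c := by rw [hc]; linarith
  set A0 : ℝ := exp (c + 4) with hA0
  have hA2 : 2 ≤ A0 := by
    have := add_one_le_exp (c + 4)
    linarith
  refine ⟨20 * A0 + 12 * c * A0 + 16 * A0 * log 4 + 20, by positivity, max 3 ⌈4 * A0⌉₊, ?_⟩
  intro n hn
  have hn3 : 3 ≤ n := (le_max_left _ _).trans hn
  have hnA : 4 * A0 ≤ n := (Nat.le_ceil _).trans (by exact_mod_cast (le_max_right _ _).trans hn)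
  have hN3 : (3:ℝ) ≤ n := by exact_mod_cast hn3
  have hN0 : (0:ℝ) < n := by linarith
  have hlN : 1 ≤ log (n:ℝ) := by
    rw [le_log_iff_exp_le hN0]
    have := exp_one_lt_d9
    linarith
  have hlN' : log (n:ℝ) ≤ n - 1 := log_le_sub_one_of_pos hN0
  obtain ⟨p, hp, hp1, hp2⟩ := exists_prime_window (y := A0 * n) (by positivity)
  have hp0 : 0 < p := hp.pos
  have hP : (0:ℝ) < p := by exact_mod_cast hp0
  have hP4 : (p:ℝ) ≤ 4 * A0 * n := by nlinarith
  have hlP : log (p:ℝ) ≤ 2 * log n := by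
    calc log (p:ℝ) ≤ log (4 * A0 * n) := log_le_log hP hP4
      _ = log (4 * A0) + log n := log_mul (by positivity) (by positivity)
      _ ≤ log n + log n := by
          gcongr
      _ = _ := by ring
  have hlP' : c + 4 ≤ log p - log n := by
    have : log (A0 * n) ≤ log p := log_le_log (by positivity) hp1
    rw [log_mul (by positivity) (by positivity), hA0, log_exp] at this
    linarith
  have hlP0 : 0 ≤ log (p:ℝ) := by linarith
  obtain ⟨k, hk⟩ : ∃ k, k = ⌈2 * log (n:ℝ)⌉₊ := ⟨_, rfl⟩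
  have hk1 : 2 * log (n:ℝ) ≤ k := by rw [hk]; exact Nat.le_ceil _
  have hk2 : (k:ℝ) < 2 * log n + 1 := by rw [hk]; exact Nat.ceil_lt_add_one (by positivity)
  have hk0 : 1 ≤ k := by
    have : (0:ℝ) < k := by linarith
    exact_mod_cast this
  have hK1 : (1:ℝ) ≤ k := by exact_mod_cast hk0
  have hk3 : (k:ℝ) ≤ 3 * log n := by linarith
  have hkp : k < p := by
    have : (k:ℝ) < p := by nlinarith
    exact_mod_cast this
  have hnp : n < p := by
    have : (n:ℝ) < p := by nlinarith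
    exact_mod_cast this
  have hKP : (k:ℝ) ≤ p := by exact_mod_cast hkp.le
  have h1 := hmain n k p (by omega) hk0 hp hkp hnp
  have h2 := first_le n k p c hc0 (lcm_le k) (by omega) hk0 hkp hnp hlP' (by linarith)
  have hd0 : 0 ≤ dst n := abs_nonneg _
  have hlk0 : 0 ≤ log (k:ℝ) := log_nonneg hK1
  have hlk : log (k:ℝ) ≤ k := by
    have := log_le_sub_one_of_pos (show (0:ℝ) < k by linarith)
    linarith
  have h3 : ((k:ℝ) + 1) * ((p.factorial : ℝ) * (Nat.lcmUpto k : ℝ) ^ p *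
        ((k.factorial : ℝ) * 4 ^ ((k + 1) * p) * Real.exp n)) * (k * Real.exp ((n + 1) * k) * dst n) ≤
      exp (k + (p * log p + p * (c * k) + (k * log k + ((k + 1) * p : ℕ) * log 4 + n)) + (k + (n + 1) * k)) *
        dst n := by
    have g1 := factorial_le_exp p hp0
    have g2 := factorial_le_exp k (by omega)
    have g3 : (Nat.lcmUpto k : ℝ) ^ p ≤ exp ((p : ℕ) * (c * k)) := by
      rw [Real.exp_nat_mul]
      exact pow_le_pow_left₀ (by positivity) (lcm_le k) _
    have g4 : (4:ℝ) ^ ((k + 1) * p) = exp (((k + 1) * p : ℕ) * log 4) := pow_eq_exp (by norm_num) _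
    have g5 : (k:ℝ) + 1 ≤ exp k := add_one_le_exp _
    have g6 : (k:ℝ) ≤ exp k := by linarith
    calc ((k:ℝ) + 1) * ((p.factorial : ℝ) * (Nat.lcmUpto k : ℝ) ^ p *
        ((k.factorial : ℝ) * 4 ^ ((k + 1) * p) * Real.exp n)) * (k * Real.exp ((n + 1) * k) * dst n)
        ≤ exp k * (exp (p * log p) * exp ((p : ℕ) * (c * k)) *
          (exp (k * log k) * exp (((k + 1) * p : ℕ) * log 4) * exp n)) *
            (exp k * exp ((n + 1) * k) * dst n) := by
          rw [g4]
          gcongr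
      _ = _ := by
          simp only [exp_add]
          ring
  set E : ℝ := k + (p * log p + p * (c * k) + (k * log k + ((k + 1) * p : ℕ) * log 4 + n)) +
    (k + (n + 1) * k) with hE
  have h4 : 1 / 2 ≤ exp E * dst n := by linarith
  have hd : 0 < dst n := by
    rcases hd0.lt_or_eq with h | h
    · exact h
    · rw [← h, mul_zero] at h4
      norm_num at h4
  have h5 : lam n = log (1 / dst n) := rfl
  have h6 : 1 / dst n ≤ exp (E + 1) := by
    rw [div_le_iff₀ hd, exp_add]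
    have h7 : 2 ≤ exp (1:ℝ) := by
      have := add_one_le_exp (1:ℝ)
      linarith
    have h8 : 0 < exp E * dst n := by positivity
    nlinarith
  have h7 : lam n ≤ E + 1 := by
    rw [h5]
    calc log (1 / dst n) ≤ log (exp (E + 1)) := log_le_log (by positivity) h6
      _ = E + 1 := log_exp _
  refine h7.trans ?_
  rw [hE]
  push_cast
  have hNl : (n:ℝ) ≤ n * log n := by nlinarith
  have hll : log (n:ℝ) ≤ n * log n := by nlinarith
  have b1 : (p:ℝ) * log p ≤ (4 * A0 * n) * (2 * log n) := by gcongr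
  have b2 : (p:ℝ) * (c * k) ≤ (4 * A0 * n) * (c * (3 * log n)) := by gcongr
  have b3 : (k:ℝ) * log k ≤ (3 * log n) * (4 * A0 * n) := by
    have : log (k:ℝ) ≤ 4 * A0 * n := by linarith
    gcongr
  have b4 : ((k:ℝ) + 1) * p * log 4 ≤ (4 * log n) * (4 * A0 * n) * log 4 := by
    have : (k:ℝ) + 1 ≤ 4 * log n := by linarith
    gcongr
  have b5 : ((n:ℝ) + 1) * k ≤ (2 * n) * (3 * log n) := by
    have : (n:ℝ) + 1 ≤ 2 * n := by linarith
    gcongr
  have b6 : (1:ℝ) ≤ n * log n := by nlinarith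
  nlinarith

end Pool.Agent.Helper94.MT
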